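import Mathlib

/-!
Balog-Szemeredi-Gowers in difference form, by dependent random choice.
-/

namespace Pool.CMP

open Finset
open scoped Pointwise

variable {G : Type*} [AddCommGroup G] [DecidableEq G]

/-- Number of common neighbours. -/
def cdg (D E : Finset G) (a a' : G) : Finset G :=
  D.filter (fun b => a + b ∈ E ∧ a' + b ∈ E)

theorem cdg_comm (D E : Finset G) (a a' : G) : cdg D E a a' = cdg D E a' a := by
  unfold cdg
  ext b
  simp only [mem_filter]
  tauto

/-- The neighbourhood with few bad pairs. -/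
theorem bsg_nbr (D E : Finset G) (K : ℝ) (hK : 1 ≤ K) (hD : D.Nonempty)
    (hpairs : (D.card:ℝ)^2 / K ≤ (((D ×ˢ D).filter (fun p => p.1 + p.2 ∈ E)).card : ℝ)) :
    ∃ b ∈ D, (D.card:ℝ)^2 / (2*K^2) ≤ ((D.filter (fun a => a + b ∈ E)).card : ℝ)^2 ∧
      ((((D.filter (fun a => a + b ∈ E)) ×ˢ (D.filter (fun a => a + b ∈ E))).filter
        (fun p => ((cdg D E p.1 p.2).card : ℝ) < D.card / (64*K^2))).card : ℝ)
        ≤ (1/32) * ((D.filter (fun a => a + b ∈ E)).card : ℝ)^2 := by
  classical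
  by_contra hcon
  push Not at hcon
  have hn0 : (0:ℝ) < D.card := by exact_mod_cast hD.card_pos
  set n : ℝ := (D.card:ℝ) with hn
  have hK0 : 0 < K := by linarith
  set Nb : G → Finset G := fun b => D.filter (fun a => a + b ∈ E) with hNb
  set bad : G → Finset (G × G) := fun b => ((Nb b) ×ˢ (Nb b)).filter
        (fun p => ((cdg D E p.1 p.2).card : ℝ) < n / (64*K^2)) with hbad
  -- sum of the sizes of the neighbourhoods
  have h1 : ∑ b ∈ D, ((Nb b).card : ℝ) = (((D ×ˢ D).filter (fun p => p.1 + p.2 ∈ E)).card : ℝ) := by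
    have : (((D ×ˢ D).filter (fun p => p.1 + p.2 ∈ E)).card : ℝ)
        = ∑ p ∈ D ×ˢ D, (if p.1 + p.2 ∈ E then (1:ℝ) else 0) := by
      rw [Finset.card_filter]; push_cast; rfl
    rw [this, Finset.sum_product_right]
    refine Finset.sum_congr rfl fun b _ => ?_
    simp only [hNb]
    rw [Finset.card_filter]; push_cast; rfl
  have h2 : n^3 / K^2 ≤ ∑ b ∈ D, ((Nb b).card : ℝ)^2 := by
    have hcs := Finset.sum_mul_sq_le_sq_mul_sq D (fun _ => (1:ℝ)) (fun b => ((Nb b).card:ℝ))
    simp only [one_mul, one_pow, sum_const, nsmul_eq_mul, mul_one] at hcs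
    rw [h1] at hcs
    have h3 : (n^2/K)^2 ≤ (((D ×ˢ D).filter (fun p => p.1 + p.2 ∈ E)).card : ℝ)^2 := by
      apply pow_le_pow_left₀ (by positivity) hpairs
    have h4 : (n^2/K)^2 ≤ n * ∑ b ∈ D, ((Nb b).card : ℝ)^2 := le_trans h3 hcs
    have h5 : (n^2/K)^2 = n * (n^3/K^2) := by field_simp
    rw [h5] at h4
    exact le_of_mul_le_mul_left h4 hn0
  -- sum of the numbers of bad pairs
  have h3 : ∑ b ∈ D, ((bad b).card : ℝ) ≤ n^2 * (n/(64*K^2)) := by
    have e1 : ∀ b ∈ D, ((bad b).card : ℝ) = ∑ p ∈ (D ×ˢ D).filter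
        (fun p => ((cdg D E p.1 p.2).card : ℝ) < n / (64*K^2)),
        (if p.1 + b ∈ E ∧ p.2 + b ∈ E then (1:ℝ) else 0) := by
      intro b _
      have : (bad b) = ((D ×ˢ D).filter
        (fun p => ((cdg D E p.1 p.2).card : ℝ) < n / (64*K^2))).filter
          (fun p => p.1 + b ∈ E ∧ p.2 + b ∈ E) := by
        ext p
        simp only [hbad, hNb, mem_filter, mem_product]
        tauto
      rw [this, Finset.card_filter]; push_cast; rfl
    rw [Finset.sum_congr rfl e1, Finset.sum_comm]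
    have e2 : ∀ p ∈ (D ×ˢ D).filter (fun p => ((cdg D E p.1 p.2).card : ℝ) < n / (64*K^2)),
        ∑ b ∈ D, (if p.1 + b ∈ E ∧ p.2 + b ∈ E then (1:ℝ) else 0) ≤ n/(64*K^2) := by
      intro p hp
      have hp2 := (mem_filter.mp hp).2
      have : ∑ b ∈ D, (if p.1 + b ∈ E ∧ p.2 + b ∈ E then (1:ℝ) else 0)
          = ((cdg D E p.1 p.2).card : ℝ) := by
        unfold cdg
        rw [Finset.card_filter]; push_cast; rfl
      rw [this]; exact hp2.le
    calc ∑ p ∈ (D ×ˢ D).filter (fun p => ((cdg D E p.1 p.2).card : ℝ) < n / (64*K^2)),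
          ∑ b ∈ D, (if p.1 + b ∈ E ∧ p.2 + b ∈ E then (1:ℝ) else 0)
        ≤ ∑ p ∈ (D ×ˢ D).filter (fun p => ((cdg D E p.1 p.2).card : ℝ) < n / (64*K^2)),
          n/(64*K^2) := Finset.sum_le_sum e2
      _ = (((D ×ˢ D).filter (fun p => ((cdg D E p.1 p.2).card : ℝ) < n / (64*K^2))).card : ℝ)
          * (n/(64*K^2)) := by rw [sum_const, nsmul_eq_mul]
      _ ≤ n^2 * (n/(64*K^2)) := by
          apply mul_le_mul_of_nonneg_right _ (by positivity)
          have : ((D ×ˢ D).filter (fun p => ((cdg D E p.1 p.2).card : ℝ) < n / (64*K^2))).card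
              ≤ (D ×ˢ D).card := Finset.card_filter_le _ _
          have h6 : ((D ×ˢ D).card : ℝ) = n^2 := by
            rw [Finset.card_product]; push_cast; ring
          calc _ ≤ ((D ×ˢ D).card : ℝ) := by exact_mod_cast this
            _ = n^2 := h6
  -- pointwise failure
  have h4 : ∀ b ∈ D, ((Nb b).card:ℝ)^2 - 32 * ((bad b).card:ℝ) ≤ n^2/(2*K^2) := by
    intro b hb
    by_cases hh : n^2/(2*K^2) ≤ ((Nb b).card:ℝ)^2
    · have := hcon b hb hh
      have h7 : (0:ℝ) ≤ n^2/(2*K^2) := by positivity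
      linarith
    · push Not at hh
      have : (0:ℝ) ≤ ((bad b).card:ℝ) := by positivity
      linarith
  have h4' : ∃ b ∈ D, ((Nb b).card:ℝ)^2 - 32 * ((bad b).card:ℝ) < n^2/(2*K^2) ∨
      (∑ b ∈ D, (((Nb b).card:ℝ)^2 - 32 * ((bad b).card:ℝ)) = ∑ b ∈ D, n^2/(2*K^2)) := by
    obtain ⟨b, hb⟩ := hD
    by_cases hh : ((Nb b).card:ℝ)^2 - 32 * ((bad b).card:ℝ) < n^2/(2*K^2)
    · exact ⟨b, hb, Or.inl hh⟩
    · by_cases hall : ∀ b ∈ D, ((Nb b).card:ℝ)^2 - 32 * ((bad b).card:ℝ) = n^2/(2*K^2)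
      · exact ⟨b, hb, Or.inr (Finset.sum_congr rfl hall)⟩
      · push Not at hall
        obtain ⟨b', hb', hne⟩ := hall
        exact ⟨b', hb', Or.inl (lt_of_le_of_ne (h4 b' hb') hne)⟩
  -- every b fails strictly
  have h8 : ∀ b ∈ D, ((Nb b).card:ℝ)^2 - 32 * ((bad b).card:ℝ) < n^2/(2*K^2) := by
    intro b hb
    by_cases hh : n^2/(2*K^2) ≤ ((Nb b).card:ℝ)^2
    · have := hcon b hb hh
      have h7 : (0:ℝ) < n^2/(2*K^2) := by positivity
      linarith
    · push Not at hh
      have : (0:ℝ) ≤ ((bad b).card:ℝ) := by positivity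
      linarith
  have h9 : ∑ b ∈ D, (((Nb b).card:ℝ)^2 - 32 * ((bad b).card:ℝ)) < ∑ b ∈ D, n^2/(2*K^2) :=
    Finset.sum_lt_sum_of_nonempty hD h8
  rw [Finset.sum_sub_distrib, ← Finset.mul_sum, sum_const, nsmul_eq_mul] at h9
  have h10 : (D.card : ℝ) * (n^2/(2*K^2)) = n^3/(2*K^2) := by rw [← hn]; ring
  rw [h10] at h9
  have h11 : n^3/K^2 - 32 * (n^2 * (n/(64*K^2))) = n^3/(2*K^2) := by
    field_simp; ring
  nlinarith [h2, h3, h9, h11]

/-- Balog-Szemeredi-Gowers, difference form. -/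
theorem bsg (D E : Finset G) (K : ℝ) (hK : 1 ≤ K) (hD : D.Nonempty)
    (hpairs : (D.card:ℝ)^2 / K ≤ (((D ×ˢ D).filter (fun p => p.1 + p.2 ∈ E)).card : ℝ))
    (hE : (E.card:ℝ) ≤ K * D.card) :
    ∃ B ⊆ D, (D.card:ℝ) / (2*K) ≤ B.card ∧ ((B - B).card : ℝ) ≤ 2^14 * K^9 * D.card := by
  classical
  obtain ⟨b0, hb0, hsz, hbd⟩ := bsg_nbr D E K hK hD hpairs
  have hn0 : (0:ℝ) < D.card := by exact_mod_cast hD.card_pos
  have hK0 : 0 < K := by linarith
  set n : ℝ := (D.card:ℝ) with hn
  set B0 : Finset G := D.filter (fun a => a + b0 ∈ E) with hB0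
  set s : ℝ := (B0.card : ℝ) with hs
  have hs0 : 0 ≤ s := by positivity
  have hsK : 0.7 * (n/K) ≤ s := by
    have h1 : (0.7 * (n/K))^2 ≤ s^2 := by
      have : n^2/(2*K^2) = (1/2) * (n/K)^2 := by field_simp
      rw [this] at hsz
      nlinarith [sq_nonneg (n/K)]
    exact le_of_sq_le_sq h1 hs0 |>.trans le_rfl
  set bd : G → Finset G := fun a => B0.filter
    (fun a' => ((cdg D E a a').card : ℝ) < n / (64*K^2)) with hbdd
  set B : Finset G := B0.filter (fun a => ((bd a).card : ℝ) ≤ s/4) with hB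
  have hBB0 : B ⊆ B0 := Finset.filter_subset _ _
  have hB0D : B0 ⊆ D := Finset.filter_subset _ _
  -- number of bad pairs
  have hsum : ∑ a ∈ B0, ((bd a).card : ℝ) ≤ (1/32) * s^2 := by
    have : ((((D.filter (fun a => a + b0 ∈ E)) ×ˢ (D.filter (fun a => a + b0 ∈ E))).filter
        (fun p => ((cdg D E p.1 p.2).card : ℝ) < n / (64*K^2))).card : ℝ)
        = ∑ a ∈ B0, ((bd a).card : ℝ) := by
      rw [Finset.card_filter]
      push_cast
      rw [Finset.sum_product]
      refine Finset.sum_congr rfl fun a _ => ?_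
      simp only [hbdd]
      rw [Finset.card_filter]; push_cast; rfl
    rw [← this]; exact hbd
  have hcardB : (7/8) * s ≤ (B.card : ℝ) := by
    have h1 : ∑ a ∈ B0 \ B, ((bd a).card : ℝ) ≤ (1/32) * s^2 :=
      le_trans (Finset.sum_le_sum_of_subset_of_nonneg Finset.sdiff_subset
        (fun _ _ _ => by positivity)) hsum
    have h2 : ∑ a ∈ B0 \ B, (s/4) ≤ ∑ a ∈ B0 \ B, ((bd a).card : ℝ) := by
      refine Finset.sum_le_sum fun a ha => ?_
      rw [Finset.mem_sdiff] at ha
      by_contra hlt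
      push Not at hlt
      exact ha.2 (by rw [hB]; exact Finset.mem_filter.mpr ⟨ha.1, hlt.le⟩)
    rw [sum_const, nsmul_eq_mul] at h2
    have h3 : ((B0 \ B).card : ℝ) = s - B.card := by
      rw [Finset.card_sdiff_of_subset hBB0]
      rw [Nat.cast_sub (Finset.card_le_card hBB0)]
    rw [h3] at h2
    have h4 : (s - B.card) * (s/4) ≤ (1/32) * s^2 := le_trans h2 h1
    rcases eq_or_lt_of_le hs0 with h0 | h0
    · have h00 : (0:ℝ) ≤ (B.card : ℝ) := Nat.cast_nonneg _
      linarith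
    · by_contra hlt
      push Not at hlt
      have : (s/8) * (s/4) < (s - B.card) * (s/4) := by
        apply mul_lt_mul_of_pos_right _ (by positivity)
        linarith
      nlinarith
  have hspos : 0 < s := lt_of_lt_of_le (by positivity) hsK
  refine ⟨B, hBB0.trans hB0D, ?_, ?_⟩
  · have : (D.card:ℝ) / (2*K) = (1/2) * (n/K) := by rw [← hn]; field_simp
    rw [this]
    have h5 : 0 < n/K := by positivity
    nlinarith
  · -- representations
    set Q : Finset (G × G × G × G) := E ×ˢ E ×ˢ E ×ˢ E with hQ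
    have hfib : ∀ x ∈ B - B, (s/2) * (n/(64*K^2)) * (n/(64*K^2)) ≤
        ((Q.filter (fun q => q.1 - q.2.1 - q.2.2.1 + q.2.2.2 = x)).card : ℝ) := by
      intro x hx
      obtain ⟨a, ha, a', ha', hxe⟩ := Finset.mem_sub.mp hx
      have haB := (Finset.mem_filter.mp ha)
      have haB' := (Finset.mem_filter.mp ha')
      set Tr : Finset (G × G × G) := (B0 ×ˢ D ×ˢ D).filter
        (fun t => (a + t.2.1 ∈ E ∧ t.1 + t.2.1 ∈ E) ∧ (a' + t.2.2 ∈ E ∧ t.1 + t.2.2 ∈ E)) with hTr
      have hinj : Tr.card ≤ (Q.filter (fun q => q.1 - q.2.1 - q.2.2.1 + q.2.2.2 = x)).card := by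
        apply Finset.card_le_card_of_injOn
          (fun t => (a + t.2.1, t.1 + t.2.1, a' + t.2.2, t.1 + t.2.2))
        · intro t ht
          rw [hTr] at ht
          have ht' := Finset.mem_filter.mp (Finset.mem_coe.mp ht)
          apply Finset.mem_coe.mpr
          refine Finset.mem_filter.mpr ⟨?_, ?_⟩
          · rw [hQ]
            simp only [Finset.mem_product]
            exact ⟨ht'.2.1.1, ht'.2.1.2, ht'.2.2.1, ht'.2.2.2⟩
          · show a + t.2.1 - (t.1 + t.2.1) - (a' + t.2.2) + (t.1 + t.2.2) = x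
            rw [← hxe]; abel
        · rintro ⟨t1, t2, t3⟩ _ ⟨u1, u2, u3⟩ _ h
          simp only [Prod.mk.injEq] at h
          obtain ⟨h1, h2, h3, h4⟩ := h
          have e2 : t2 = u2 := by exact add_left_cancel h1
          have e3 : t3 = u3 := by exact add_left_cancel h3
          subst e2; subst e3
          have e1 : t1 = u1 := add_right_cancel h2
          subst e1; rfl
      have hTrc : (Tr.card : ℝ) = ∑ a2 ∈ B0, ((cdg D E a a2).card : ℝ) * ((cdg D E a' a2).card : ℝ) := by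
        rw [hTr, Finset.card_filter]
        push_cast
        rw [Finset.sum_product]
        refine Finset.sum_congr rfl fun a2 _ => ?_
        rw [Finset.sum_product]
        unfold cdg
        rw [Finset.card_filter, Finset.card_filter]
        push_cast
        rw [Finset.sum_mul_sum]
        refine Finset.sum_congr rfl fun b _ => ?_
        refine Finset.sum_congr rfl fun b' _ => ?_
        by_cases h1 : (a + b ∈ E ∧ a2 + b ∈ E)
        · by_cases h2 : (a' + b' ∈ E ∧ a2 + b' ∈ E)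
          · rw [if_pos ⟨h1, h2⟩, if_pos h1, if_pos h2, mul_one]
          · rw [if_neg (fun h => h2 h.2), if_neg h2, mul_zero]
        · rw [if_neg (fun h => h1 h.1), if_neg h1, zero_mul]
      -- good middle points
      set Gd : Finset G := B0 \ (bd a ∪ bd a') with hGd
      have hGdc : s/2 ≤ (Gd.card : ℝ) := by
        have hsub : bd a ∪ bd a' ⊆ B0 := Finset.union_subset (Finset.filter_subset _ _)
          (Finset.filter_subset _ _)
        have h1 : (Gd.card : ℝ) = s - (bd a ∪ bd a').card := by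
          rw [hGd, Finset.card_sdiff_of_subset hsub, Nat.cast_sub (Finset.card_le_card hsub)]
        have h2 : ((bd a ∪ bd a').card : ℝ) ≤ (bd a).card + (bd a').card := by
          exact_mod_cast Finset.card_union_le _ _
        have h3 := haB.2
        have h4 := haB'.2
        rw [h1]; linarith
      have hτ : 0 ≤ n/(64*K^2) := by positivity
      calc (s/2) * (n/(64*K^2)) * (n/(64*K^2))
          ≤ (Gd.card : ℝ) * (n/(64*K^2)) * (n/(64*K^2)) := by gcongr
        _ = ∑ a2 ∈ Gd, (n/(64*K^2)) * (n/(64*K^2)) := by rw [sum_const, nsmul_eq_mul, mul_assoc]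
        _ ≤ ∑ a2 ∈ Gd, ((cdg D E a a2).card : ℝ) * ((cdg D E a' a2).card : ℝ) := by
            refine Finset.sum_le_sum fun a2 h2 => ?_
            rw [hGd, Finset.mem_sdiff, Finset.mem_union, not_or] at h2
            obtain ⟨h20, h21, h22⟩ := h2
            have g1 : n/(64*K^2) ≤ ((cdg D E a a2).card : ℝ) := by
              by_contra hlt; push Not at hlt
              exact h21 (Finset.mem_filter.mpr ⟨h20, hlt⟩)
            have g2 : n/(64*K^2) ≤ ((cdg D E a' a2).card : ℝ) := by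
              by_contra hlt; push Not at hlt
              exact h22 (Finset.mem_filter.mpr ⟨h20, hlt⟩)
            exact mul_le_mul g1 g2 hτ (by positivity)
        _ ≤ ∑ a2 ∈ B0, ((cdg D E a a2).card : ℝ) * ((cdg D E a' a2).card : ℝ) :=
            Finset.sum_le_sum_of_subset_of_nonneg Finset.sdiff_subset (fun _ _ _ => by positivity)
        _ = (Tr.card : ℝ) := hTrc.symm
        _ ≤ _ := by exact_mod_cast hinj
    have htot : ∑ x ∈ B - B, ((Q.filter (fun q => q.1 - q.2.1 - q.2.2.1 + q.2.2.2 = x)).card : ℝ)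
        ≤ (Q.card : ℝ) := by
      have h1 : ∑ x ∈ B - B, (Q.filter (fun q => q.1 - q.2.1 - q.2.2.1 + q.2.2.2 = x)).card
          = ((B - B).biUnion (fun x => Q.filter
            (fun q => q.1 - q.2.1 - q.2.2.1 + q.2.2.2 = x))).card := by
        rw [Finset.card_biUnion]
        intro x _ y _ hxy
        rw [Function.onFun, Finset.disjoint_left]
        intro q hq hq'
        exact hxy ((Finset.mem_filter.mp hq).2.symm.trans (Finset.mem_filter.mp hq').2)
      have h2 : ((B - B).biUnion (fun x => Q.filter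
            (fun q => q.1 - q.2.1 - q.2.2.1 + q.2.2.2 = x))) ⊆ Q := by
        intro q hq
        obtain ⟨x, _, hx⟩ := Finset.mem_biUnion.mp hq
        exact (Finset.mem_filter.mp hx).1
      calc ∑ x ∈ B - B, ((Q.filter (fun q => q.1 - q.2.1 - q.2.2.1 + q.2.2.2 = x)).card : ℝ)
          = ((∑ x ∈ B - B, (Q.filter (fun q => q.1 - q.2.1 - q.2.2.1 + q.2.2.2 = x)).card : ℕ) : ℝ) := by
            push_cast; rfl
        _ ≤ (Q.card : ℝ) := by rw [h1]; exact_mod_cast Finset.card_le_card h2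
    have hQc : (Q.card : ℝ) = (E.card:ℝ)^4 := by
      rw [hQ, Finset.card_product, Finset.card_product, Finset.card_product]
      push_cast; ring
    have hmain : ((B - B).card : ℝ) * ((s/2) * (n/(64*K^2)) * (n/(64*K^2))) ≤ (K * n)^4 := by
      calc ((B - B).card : ℝ) * ((s/2) * (n/(64*K^2)) * (n/(64*K^2)))
          = ∑ x ∈ B - B, ((s/2) * (n/(64*K^2)) * (n/(64*K^2))) := by
            rw [sum_const, nsmul_eq_mul]
        _ ≤ ∑ x ∈ B - B, ((Q.filter (fun q => q.1 - q.2.1 - q.2.2.1 + q.2.2.2 = x)).card : ℝ) :=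
            Finset.sum_le_sum hfib
        _ ≤ (E.card:ℝ)^4 := by rw [← hQc]; exact htot
        _ ≤ (K * n)^4 := pow_le_pow_left₀ (by positivity) hE 4
    have hlow : (n/(2*K)/2) * (n/(64*K^2)) * (n/(64*K^2)) ≤
        (s/2) * (n/(64*K^2)) * (n/(64*K^2)) := by
      have h5 : 0 < n/K := by positivity
      have : n/(2*K) ≤ s := by
        have : n/(2*K) = (1/2) * (n/K) := by field_simp
        rw [this]; linarith
      gcongr
    have hfin : ((B - B).card : ℝ) * ((n/(2*K)/2) * (n/(64*K^2)) * (n/(64*K^2))) ≤ (K * n)^4 :=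
      le_trans (mul_le_mul_of_nonneg_left hlow (by positivity)) hmain
    have hval : (2^14 * K^9 * n) * ((n/(2*K)/2) * (n/(64*K^2)) * (n/(64*K^2))) = (K * n)^4 := by
      field_simp; norm_num
    rw [← hval] at hfin
    exact le_of_mul_le_mul_right hfin (by positivity)

end Pool.CMP
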