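import Pool.Agent.H50.CMP.One

/-!
The difference law of a family, the return lemma, and the statement `one function` for families.
-/

namespace Pool.CMP

open Finset
open scoped Pointwise

variable {G : Type*} [AddCommGroup G] [DecidableEq G]
variable {ι : Type*}

/-- The law of `f v - f v'`, `v, v'` independent with weights `μ`. -/
noncomputable def dl (V : Finset ι) (μ : ι → ℝ) (f : ι → G) (hμ : ∀ v ∈ V, 0 ≤ μ v)
    (hW : 0 < ∑ v ∈ V, μ v) : Lw G where
  S := (V ×ˢ V).image (fun q => f q.1 - f q.2)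
  p := fun x => (∑ q ∈ (V ×ˢ V).filter (fun q => f q.1 - f q.2 = x), μ q.1 * μ q.2)
    / (∑ v ∈ V, μ v)^2
  nn := by
    intro x
    refine div_nonneg (Finset.sum_nonneg fun q hq => ?_) (by positivity)
    have := Finset.mem_product.mp (Finset.mem_filter.mp hq).1
    exact mul_nonneg (hμ _ this.1) (hμ _ this.2)
  sp := by
    intro x hx
    rw [Finset.filter_false_of_mem, Finset.sum_empty, zero_div]
    intro q hq h
    exact hx (Finset.mem_image.mpr ⟨q, hq, h⟩)
  tot := by
    rw [← Finset.sum_div, Finset.sum_fiberwise_of_maps_to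
      (fun q hq => Finset.mem_image_of_mem _ hq), Finset.sum_product, ← Finset.sum_mul_sum,
      ← sq, div_self (by positivity)]

theorem dl_mass (V : Finset ι) (μ : ι → ℝ) (f : ι → G) (hμ : ∀ v ∈ V, 0 ≤ μ v)
    (hW : 0 < ∑ v ∈ V, μ v) (E : Finset G) (a : G) :
    ∑ x ∈ E, (dl V μ f hμ hW).p (x - a) =
      (∑ v' ∈ V, μ v' * ∑ v ∈ V.filter (fun v => a + f v - f v' ∈ E), μ v) / (∑ v ∈ V, μ v)^2 := by
  classical
  show ∑ x ∈ E, (∑ q ∈ (V ×ˢ V).filter (fun q => f q.1 - f q.2 = x - a), μ q.1 * μ q.2)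
    / (∑ v ∈ V, μ v)^2 = _
  rw [← Finset.sum_div]
  congr 1
  have h1 : ∀ x ∈ E, ∑ q ∈ (V ×ˢ V).filter (fun q => f q.1 - f q.2 = x - a), μ q.1 * μ q.2
      = ∑ q ∈ (V ×ˢ V).filter (fun q => a + f q.1 - f q.2 = x), μ q.1 * μ q.2 := by
    intro x _
    refine Finset.sum_congr ?_ fun _ _ => rfl
    ext q
    simp only [Finset.mem_filter]
    constructor
    · rintro ⟨hq, h⟩
      exact ⟨hq, by rw [add_sub_assoc, h]; abel⟩
    · rintro ⟨hq, h⟩
      exact ⟨hq, by rw [← h]; abel⟩
  rw [Finset.sum_congr rfl h1, Finset.sum_fiberwise_eq_sum_filter, Finset.sum_filter,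
    Finset.sum_product_right]
  refine Finset.sum_congr rfl fun v' _ => ?_
  rw [Finset.mul_sum, Finset.sum_filter]
  refine Finset.sum_congr rfl fun v _ => ?_
  by_cases h : a + f v - f v' ∈ E
  · rw [if_pos h, if_pos h, mul_comm]
  · rw [if_neg h, if_neg h]

/-- A set which carries mass th of the difference law carries, on a translate, relative weight th
of the family. -/
theorem dl_exists (V : Finset ι) (μ : ι → ℝ) (f : ι → G) (hμ : ∀ v ∈ V, 0 ≤ μ v)
    (hW : 0 < ∑ v ∈ V, μ v) (E : Finset G) (th : ℝ) (hth : 0 < th)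
    (h : th ≤ (dl V μ f hμ hW).mass E) :
    ∃ z : G, th * ∑ v ∈ V, μ v ≤ ∑ v ∈ V.filter (fun v => f v + z ∈ E), μ v := by
  classical
  have h0 := dl_mass V μ f hμ hW E 0
  simp only [sub_zero, zero_add] at h0
  have h1 : (dl V μ f hμ hW).mass E = (∑ v' ∈ V, μ v' *
      ∑ v ∈ V.filter (fun v => f v - f v' ∈ E), μ v) / (∑ v ∈ V, μ v)^2 := h0
  rw [h1, le_div_iff₀ (by positivity)] at h
  by_contra hcon
  push Not at hcon
  have hVne : V.Nonempty := by
    by_contra hne
    rw [Finset.not_nonempty_iff_eq_empty] at hne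
    rw [hne, Finset.sum_empty] at hW
    exact lt_irrefl _ hW
  have h2 : ∀ v' ∈ V, μ v' * ∑ v ∈ V.filter (fun v => f v - f v' ∈ E), μ v ≤
      μ v' * (th * ∑ v ∈ V, μ v) := by
    intro v' hv'
    refine mul_le_mul_of_nonneg_left ?_ (hμ v' hv')
    have := (hcon (- f v')).le
    simpa [sub_eq_add_neg] using this
  -- some weight is positive, hence strict inequality
  obtain ⟨v0, hv0, hpos⟩ : ∃ v0 ∈ V, 0 < μ v0 := by
    by_contra hh
    push Not at hh
    exact absurd (Finset.sum_nonpos hh) (not_le.mpr hW)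
  have h3 : μ v0 * ∑ v ∈ V.filter (fun v => f v - f v0 ∈ E), μ v <
      μ v0 * (th * ∑ v ∈ V, μ v) := by
    refine mul_lt_mul_of_pos_left ?_ hpos
    have := hcon (- f v0)
    simpa [sub_eq_add_neg] using this
  have h4 := Finset.sum_lt_sum h2 ⟨v0, hv0, h3⟩
  rw [← Finset.sum_mul] at h4
  have h5 : (∑ v ∈ V, μ v) * (th * ∑ v ∈ V, μ v) = th * (∑ v ∈ V, μ v)^2 := by ring
  linarith

/-- RETURN: the leftover set. `J` indexes the functions. -/
theorem leftover [DecidableEq ι] {J : Type*} [Fintype J] (V : Finset ι) (μ : ι → ℝ) (f : J → ι → G)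
    (hμ : ∀ v ∈ V, 0 ≤ μ v) (hW : 0 < ∑ v ∈ V, μ v) (A : Finset G) (A' : J → Finset G)
    (N : ι → Finset G) (hN : ∀ v ∈ V, N v ⊆ A) (hA0 : A.Nonempty) (α : ℝ) (hα0 : 0 < α)
    (hNc : ∀ v ∈ V, α * A.card ≤ (N v).card)
    (hf : ∀ j, ∀ v ∈ V, ∀ n ∈ N v, n + f j v ∈ A' j)
    (hA' : ∀ j, α * ((A' j).card : ℝ) ≤ A.card) (θ : ℝ) (hθ : 0 < θ)
    (hθα : θ * (Fintype.card J : ℝ) < α^2) :
    ∃ P : Finset (ι × G), P.Nonempty ∧ (∀ q ∈ P, q.1 ∈ V ∧ q.2 ∈ N q.1) ∧
      ∀ q ∈ P, ∀ j, θ * ∑ v ∈ V, μ v ≤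
        ∑ v ∈ V.filter (fun v => (v, q.2 + f j q.1 - f j v) ∈ P), μ v := by
  classical
  set W : ℝ := ∑ v ∈ V, μ v with hWd
  set P0 : Finset (ι × G) := (V ×ˢ A).filter (fun q => q.2 ∈ N q.1) with hP0
  set Φ : Finset (ι × G) → ℝ := fun P => ∑ q ∈ P, μ q.1
    - θ * W * ∑ j, ((P.image (fun q => q.2 + f j q.1)).card : ℝ) with hΦ
  obtain ⟨P, hP, hmax⟩ := Finset.exists_max_image P0.powerset Φ ⟨P0, Finset.mem_powerset_self P0⟩
  have hPP0 := Finset.mem_powerset.mp hP
  have hcardA : (0:ℝ) < A.card := by exact_mod_cast hA0.card_pos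
  -- the potential of P0 is positive
  have hpos : 0 < Φ P0 := by
    have h1 : α * A.card * W ≤ ∑ q ∈ P0, μ q.1 := by
      rw [hP0, Finset.sum_filter, Finset.sum_product]
      have : ∀ v ∈ V, α * A.card * μ v ≤ ∑ n ∈ A, (if n ∈ N v then μ v else 0) := by
        intro v hv
        rw [← Finset.sum_filter, sum_const, nsmul_eq_mul]
        have e : A.filter (fun n => n ∈ N v) = N v := by
          ext n; simp only [Finset.mem_filter]
          exact ⟨fun h => h.2, fun h => ⟨hN v hv h, h⟩⟩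
        rw [e]
        exact mul_le_mul_of_nonneg_right (hNc v hv) (hμ v hv)
      calc α * A.card * W = ∑ v ∈ V, α * A.card * μ v := by rw [hWd, Finset.mul_sum]
        _ ≤ _ := Finset.sum_le_sum this
    have h2 : ∀ j, ((P0.image (fun q => q.2 + f j q.1)).card : ℝ) ≤ A.card / α := by
      intro j
      have h3 : P0.image (fun q => q.2 + f j q.1) ⊆ A' j := by
        intro x hx
        obtain ⟨q, hq, rfl⟩ := Finset.mem_image.mp hx
        have hq' := Finset.mem_filter.mp hq
        exact hf j q.1 (Finset.mem_product.mp hq'.1).1 q.2 hq'.2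
      have h4 : ((P0.image (fun q => q.2 + f j q.1)).card : ℝ) ≤ (A' j).card := by
        exact_mod_cast Finset.card_le_card h3
      rw [le_div_iff₀ hα0]
      calc _ ≤ ((A' j).card : ℝ) * α := mul_le_mul_of_nonneg_right h4 hα0.le
        _ = α * ((A' j).card : ℝ) := mul_comm _ _
        _ ≤ A.card := hA' j
    have h3 : ∑ j : J, ((P0.image (fun q => q.2 + f j q.1)).card : ℝ) ≤
        (Fintype.card J : ℝ) * (A.card / α) := by
      calc _ ≤ ∑ j : J, (A.card : ℝ) / α := Finset.sum_le_sum fun j _ => h2 j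
        _ = (Fintype.card J : ℝ) * (A.card / α) := by
          rw [sum_const, nsmul_eq_mul, Finset.card_univ]
    have h4 : θ * W * ∑ j : J, ((P0.image (fun q => q.2 + f j q.1)).card : ℝ) ≤
        θ * W * ((Fintype.card J : ℝ) * (A.card / α)) :=
      mul_le_mul_of_nonneg_left h3 (by positivity)
    have h5 : θ * W * ((Fintype.card J : ℝ) * (A.card / α)) < α * A.card * W := by
      have : θ * W * ((Fintype.card J : ℝ) * (A.card / α)) =
          (θ * (Fintype.card J : ℝ)) * (W * A.card / α) := by ring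
      rw [this]
      have h6 : α * A.card * W = α^2 * (W * A.card / α) := by field_simp
      rw [h6]
      exact mul_lt_mul_of_pos_right hθα (by positivity)
    show 0 < ∑ q ∈ P0, μ q.1 - θ * W * ∑ j, ((P0.image (fun q => q.2 + f j q.1)).card : ℝ)
    linarith
  have hPpos : 0 < Φ P := lt_of_lt_of_le hpos (hmax P0 (Finset.mem_powerset_self P0))
  have hPne : P.Nonempty := by
    by_contra hne
    rw [Finset.not_nonempty_iff_eq_empty] at hne
    rw [hne] at hPpos
    simp [hΦ] at hPpos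
  have hPV : ∀ q ∈ P, q.1 ∈ V ∧ q.2 ∈ N q.1 := by
    intro q hq
    have := Finset.mem_filter.mp (hPP0 hq)
    exact ⟨(Finset.mem_product.mp this.1).1, this.2⟩
  refine ⟨P, hPne, hPV, ?_⟩
  intro q0 hq0 j
  set x : G := q0.2 + f j q0.1 with hx
  set F : Finset (ι × G) := P.filter (fun q => q.2 + f j q.1 = x) with hF
  have hFsub : F ⊆ P := Finset.filter_subset _ _
  have hFmass : ∑ q ∈ F, μ q.1 = ∑ v ∈ V.filter (fun v => (v, x - f j v) ∈ P), μ v := by
    refine Finset.sum_bij' (fun q _ => q.1) (fun v _ => (v, x - f j v)) ?_ ?_ ?_ ?_ ?_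
    · intro q hq
      have h := Finset.mem_filter.mp hq
      refine Finset.mem_filter.mpr ⟨(hPV q h.1).1, ?_⟩
      have : x - f j q.1 = q.2 := by rw [← h.2]; abel
      rw [this]; exact h.1
    · intro v hv
      have h := Finset.mem_filter.mp hv
      exact Finset.mem_filter.mpr ⟨h.2, by simp⟩
    · intro q hq
      have h := Finset.mem_filter.mp hq
      have : x - f j q.1 = q.2 := by rw [← h.2]; abel
      simp only [this]
    · intro v _; rfl
    · intro q _; rfl
  rw [← hFmass]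
  by_contra hlt
  push Not at hlt
  have hP' : P \ F ∈ P0.powerset := Finset.mem_powerset.mpr (Finset.sdiff_subset.trans hPP0)
  have h1 := hmax _ hP'
  have h2 : ∑ q ∈ P \ F, μ q.1 = ∑ q ∈ P, μ q.1 - ∑ q ∈ F, μ q.1 := by
    rw [← Finset.sum_sdiff hFsub]; ring
  have h3 : ∀ i : J, (((P \ F).image (fun q => q.2 + f i q.1)).card : ℝ) ≤
      ((P.image (fun q => q.2 + f i q.1)).card : ℝ) := by
    intro i
    exact_mod_cast Finset.card_le_card (Finset.image_subset_image Finset.sdiff_subset)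
  have h4 : (((P \ F).image (fun q => q.2 + f j q.1)).card : ℝ) + 1 ≤
      ((P.image (fun q => q.2 + f j q.1)).card : ℝ) := by
    have h5 : ((P \ F).image (fun q => q.2 + f j q.1)) ⊂ (P.image (fun q => q.2 + f j q.1)) := by
      rw [Finset.ssubset_iff_of_subset (Finset.image_subset_image Finset.sdiff_subset)]
      refine ⟨x, Finset.mem_image.mpr ⟨q0, hq0, rfl⟩, ?_⟩
      intro hxm
      obtain ⟨q, hq, hqx⟩ := Finset.mem_image.mp hxm
      have := Finset.mem_sdiff.mp hq
      exact this.2 (Finset.mem_filter.mpr ⟨this.1, hqx⟩)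
    exact_mod_cast Finset.card_lt_card h5
  have h5 : ∑ i : J, (((P \ F).image (fun q => q.2 + f i q.1)).card : ℝ) + 1 ≤
      ∑ i : J, ((P.image (fun q => q.2 + f i q.1)).card : ℝ) := by
    rw [← Finset.add_sum_erase _ _ (Finset.mem_univ j), ← Finset.add_sum_erase _ _ (Finset.mem_univ j)]
    have := Finset.sum_le_sum (s := Finset.univ.erase j) fun i _ => h3 i
    linarith
  have h6 : θ * W * (∑ i : J, (((P \ F).image (fun q => q.2 + f i q.1)).card : ℝ) + 1) ≤
      θ * W * ∑ i : J, ((P.image (fun q => q.2 + f i q.1)).card : ℝ) :=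
    mul_le_mul_of_nonneg_left h5 (by positivity)
  simp only [hΦ] at h1
  rw [h2] at h1
  nlinarith

/-- The return property of all the difference laws, on one set contained in A. -/
theorem ret_all [DecidableEq ι] {J : Type*} [Fintype J] (V : Finset ι) (μ : ι → ℝ) (f : J → ι → G)
    (hμ : ∀ v ∈ V, 0 ≤ μ v) (hW : 0 < ∑ v ∈ V, μ v) (A : Finset G) (A' : J → Finset G)
    (N : ι → Finset G) (hN : ∀ v ∈ V, N v ⊆ A) (hA0 : A.Nonempty) (α : ℝ) (hα0 : 0 < α)
    (hα1 : α ≤ 1)
    (hNc : ∀ v ∈ V, α * A.card ≤ (N v).card)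
    (hf : ∀ j, ∀ v ∈ V, ∀ n ∈ N v, n + f j v ∈ A' j)
    (hA' : ∀ j, α * ((A' j).card : ℝ) ≤ A.card) (θ : ℝ) (hθ : 0 < θ)
    (hθα : θ * ((Fintype.card J : ℝ) + 1) < α^2) :
    ∃ A0 ⊆ A, A0.Nonempty ∧ ∀ j, Ret (dl V μ (f j) hμ hW) A0 (θ^2) := by
  classical
  have hl := leftover (J := Option J) V μ (fun o => o.elim (fun _ => 0) f) hμ hW A
    (fun o => o.elim A A') N hN hA0 α hα0 hNc (by
      rintro (_ | j) v hv n hn
      · simp only [Option.elim, add_zero]; exact hN v hv hn
      · exact hf j v hv n hn) (by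
      rintro (_ | j)
      · simp only [Option.elim]
        have : (0:ℝ) ≤ A.card := by positivity
        nlinarith
      · exact hA' j) θ hθ (by
      rw [Fintype.card_option]; push_cast; exact hθα)
  obtain ⟨P, hPne, hPV, hP⟩ := hl
  refine ⟨P.image Prod.snd, ?_, hPne.image _, ?_⟩
  · intro n hn
    obtain ⟨q, hq, rfl⟩ := Finset.mem_image.mp hn
    exact hN q.1 (hPV q hq).1 (hPV q hq).2
  · intro j n hn
    obtain ⟨q, hq, rfl⟩ := Finset.mem_image.mp hn
    rw [dl_mass, le_div_iff₀ (by positivity)]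
    set W : ℝ := ∑ v ∈ V, μ v with hWd
    -- exchange the order: choose first v, then v'
    have hswap : ∑ v' ∈ V, μ v' * ∑ v ∈ V.filter
        (fun v => q.2 + f j v - f j v' ∈ P.image Prod.snd), μ v
        = ∑ v ∈ V, μ v * ∑ v' ∈ V.filter
        (fun v' => q.2 + f j v - f j v' ∈ P.image Prod.snd), μ v' := by
      simp only [Finset.sum_filter, Finset.mul_sum]
      rw [Finset.sum_comm]
      refine Finset.sum_congr rfl fun v _ => Finset.sum_congr rfl fun v' _ => ?_
      split_ifs <;> ring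
    rw [hswap]
    have h1 : θ * W ≤ ∑ v ∈ V.filter (fun v => (v, q.2) ∈ P), μ v := by
      have h1 := hP q hq none
      simpa only [Option.elim, add_zero, sub_zero] using h1
    have h2 : ∀ v ∈ V.filter (fun v => (v, q.2) ∈ P), μ v * (θ * W) ≤
        μ v * ∑ v' ∈ V.filter (fun v' => q.2 + f j v - f j v' ∈ P.image Prod.snd), μ v' := by
      intro v hv
      have hv' := Finset.mem_filter.mp hv
      refine mul_le_mul_of_nonneg_left ?_ (hμ v hv'.1)
      have h3 : θ * W ≤ ∑ v' ∈ V.filter (fun v' => (v', q.2 + f j v - f j v') ∈ P), μ v' :=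
        hP (v, q.2) hv'.2 (some j)
      refine h3.trans (Finset.sum_le_sum_of_subset_of_nonneg ?_ ?_)
      · intro v' hv''
        have := Finset.mem_filter.mp hv''
        exact Finset.mem_filter.mpr ⟨this.1, Finset.mem_image.mpr ⟨_, this.2, rfl⟩⟩
      · intro v' hv'' _
        exact hμ v' (Finset.mem_filter.mp hv'').1
    calc θ^2 * W^2 = (θ * W) * (θ * W) := by ring
      _ ≤ (∑ v ∈ V.filter (fun v => (v, q.2) ∈ P), μ v) * (θ * W) :=
          mul_le_mul_of_nonneg_right h1 (by positivity)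
      _ = ∑ v ∈ V.filter (fun v => (v, q.2) ∈ P), μ v * (θ * W) := by rw [Finset.sum_mul]
      _ ≤ ∑ v ∈ V.filter (fun v => (v, q.2) ∈ P), μ v *
          ∑ v' ∈ V.filter (fun v' => q.2 + f j v - f j v' ∈ P.image Prod.snd), μ v' :=
          Finset.sum_le_sum h2
      _ ≤ _ := Finset.sum_le_sum_of_subset_of_nonneg (Finset.filter_subset _ _) (by
          intro v hv _
          refine mul_nonneg (hμ v hv) (Finset.sum_nonneg fun v' hv' => ?_)
          exact hμ v' (Finset.mem_filter.mp hv').1)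

end Pool.CMP
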