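import Pool.Agent.H50.CMP.Fam

/-!
One function of a family: a sub-family of large weight on which the function takes its values in a
translate of a set of small doubling, whose size is controlled by the spread of the walk.
-/

namespace Pool.CMP

open Finset
open scoped Pointwise

variable {G : Type*} [AddCommGroup G] [DecidableEq G]
variable {ι : Type*}

theorem ret_mass {ν : Lw G} {A0 : Finset G} {β : ℝ} (h : Ret ν A0 β) (hne : A0.Nonempty) :
    ∃ E : Finset G, E.card = A0.card ∧ β ≤ ν.mass E := by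
  obtain ⟨n, hn⟩ := hne
  refine ⟨A0.image (fun x => x - n), card_shift A0 n, ?_⟩
  rw [← ν.shift]; exact h n hn

theorem mc_pw_mono {ν : Lw G} {A0 : Finset G} {β th : ℝ} (hne : A0.Nonempty) (hβ0 : 0 < β)
    (hβ1 : β ≤ 1) (hret : Ret ν A0 β) (hth : 0 < th) (L' : ℕ) (hL : th ≤ β^(2^L')) (a : ℕ)
    (ha : a ≤ L') : mc (ν.pw a) th ≤ mc (ν.pw L') th := by
  have hex : ∀ b ≤ L', ∃ E : Finset G, th ≤ (ν.pw b).mass E := by
    intro b hb
    obtain ⟨E, _, hE⟩ := ret_mass (hret.pw hβ0.le b) hne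
    refine ⟨E, (hL.trans ?_).trans hE⟩
    exact pow_le_pow_of_le_one hβ0.le hβ1 (Nat.pow_le_pow_right (by norm_num) hb)
  obtain ⟨k, rfl⟩ := Nat.exists_eq_add_of_le ha
  have : ∀ k, a + k ≤ (a + k) → (∀ b ≤ a + k, ∃ E : Finset G, th ≤ (ν.pw b).mass E) →
      mc (ν.pw a) th ≤ mc (ν.pw (a + k)) th := by
    intro k
    induction k with
    | zero => intro _ _; exact le_rfl
    | succ k ih =>
      intro _ hh
      refine (ih le_rfl (fun b hb => hh b (by omega))).trans ?_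
      exact mc_pw_succ hth (a + k) (hh (a + k + 1) (by omega))
  exact this k le_rfl hex

/-- One function. -/
theorem one_fun (V : Finset ι) (μ : ι → ℝ) (f : ι → G) (hμ : ∀ v ∈ V, 0 ≤ μ v)
    (hW : 0 < ∑ v ∈ V, μ v) (A0 : Finset G) (hA0 : A0.Nonempty)
    (β : ℝ) (hβ0 : 0 < β) (hβ1 : β ≤ 1) (hret : Ret (dl V μ f hμ hW) A0 β)
    (K τ : ℝ) (hK : 1 < K) (hτ : 0 < τ) (L L' : ℕ) (hLL : L ≤ L') (th' : ℝ)
    (h1 : 4^L*τ ≤ th') (h2 : th' ≤ β^(2^L')) (hbig : (A0.card:ℝ) < K^L) :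
    ∃ (B : Finset G) (z : G) (Vs : Finset ι), Vs ⊆ V ∧ (∀ v ∈ Vs, f v + z ∈ B) ∧
      (B.card:ℝ) ≤ 2*(K/τ) * mc ((dl V μ f hμ hW).pw L') th' ∧
      ((B - B).card:ℝ) ≤ 2^35*(K/τ)^30 * B.card ∧
      (1/16)*(τ/K)^5 * ∑ v ∈ V, μ v ≤ ∑ v ∈ Vs, μ v := by
  classical
  set ν : Lw G := dl V μ f hμ hW with hν
  set th : ℕ → ℝ := fun a => 4^a * τ with hthd
  have hth0 : ∀ a, 0 < th a := fun a => by rw [hthd]; positivity
  have hthle : ∀ a ≤ L, th a ≤ th' := by
    intro a ha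
    refine le_trans ?_ h1
    exact mul_le_mul_of_nonneg_right (pow_le_pow_right₀ (by norm_num) ha) hτ.le
  have hth'0 : 0 < th' := lt_of_lt_of_le (hth0 L) h1
  have hex : ∀ b ≤ L', ∃ E : Finset G, E.card = A0.card ∧ th' ≤ (ν.pw b).mass E := by
    intro b hb
    obtain ⟨E, hc, hE⟩ := ret_mass (hret.pw hβ0.le b) hA0
    refine ⟨E, hc, (h2.trans ?_).trans hE⟩
    exact pow_le_pow_of_le_one hβ0.le hβ1 (Nat.pow_le_pow_right (by norm_num) hb)
  have hex' : ∀ b ≤ L, ∃ E : Finset G, th b ≤ (ν.pw b).mass E := by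
    intro b hb
    obtain ⟨E, _, hE⟩ := hex b (hb.trans hLL)
    exact ⟨E, (hthle b hb).trans hE⟩
  -- pigeonhole
  obtain ⟨a, haL, ha⟩ : ∃ a < L, (mc (ν.pw (a+1)) (th (a+1)) : ℝ) ≤ K * mc (ν.pw a) (th a) := by
    by_contra hcon
    push Not at hcon
    have hgrow : ∀ a ≤ L, K^a ≤ (mc (ν.pw a) (th a) : ℝ) := by
      intro a
      induction a with
      | zero =>
        intro _
        rw [pow_zero]
        have := mc_pos (hth0 0) (hex' 0 (Nat.zero_le _))
        exact_mod_cast this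
      | succ a ih =>
        intro ha
        have h3 := hcon a (by omega)
        have h4 := ih (by omega)
        calc K^(a+1) = K * K^a := by ring
          _ ≤ K * mc (ν.pw a) (th a) := mul_le_mul_of_nonneg_left h4 (by linarith)
          _ ≤ _ := h3.le
    have h5 := hgrow L le_rfl
    obtain ⟨E, hc, hE⟩ := hex L hLL
    have h6 : mc (ν.pw L) (th L) ≤ A0.card := by
      rw [← hc]; exact mc_le ((hthle L le_rfl).trans hE)
    have h7 : (mc (ν.pw L) (th L) : ℝ) ≤ A0.card := by exact_mod_cast h6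
    linarith
  have hm : 0 < mc (ν.pw a) (th a) := mc_pos (hth0 a) (hex' a haL.le)
  obtain ⟨E, hEc, hE⟩ := mc_spec (hex' (a+1) haL)
  have hth1 : th a ≤ 1 := by
    refine ((hthle a haL.le).trans h2).trans (pow_le_one₀ hβ0.le hβ1)
  have h4th : 4 * th a ≤ ((ν.pw a).cv (ν.pw a)).mass E := by
    have : 4 * th a = th (a+1) := by rw [hthd]; ring
    rw [this]; exact hE
  obtain ⟨B, hB1, hB2, hB3⟩ := one_core (ν.pw a) (th a) K (mc (ν.pw a) (th a)) (hth0 a) hth1 hK.le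
    hm (fun E' h => mass_lt_of_card_lt h) E (by rw [hEc]; exact ha) h4th
  have hK0 : 0 < K := by linarith
  have hτth : τ ≤ th a := by
    rw [hthd]
    have : (1:ℝ) ≤ 4^a := one_le_pow₀ (by norm_num)
    nlinarith
  have hΛ : K/th a ≤ K/τ := div_le_div_of_nonneg_left hK0.le hτ hτth
  have hp0 : 0 < (1/16) * (th a/K)^5 := by have := hth0 a; positivity
  obtain ⟨z, hz⟩ := ν.pw_exists a B _ hp0 hB3
  obtain ⟨z', hz'⟩ := dl_exists V μ f hμ hW _ _ hp0 hz
  refine ⟨B, z' + z, V.filter (fun v => f v + z' ∈ B.image (fun x => x - z)),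
    Finset.filter_subset _ _, ?_, ?_, ?_, ?_⟩
  · intro v hv
    obtain ⟨x, hx, hxe⟩ := Finset.mem_image.mp (Finset.mem_filter.mp hv).2
    have : f v + (z' + z) = x := by rw [← add_assoc, ← hxe]; abel
    rw [this]; exact hx
  · have h3 : mc (ν.pw a) (th a) ≤ mc (ν.pw L') th' := by
      refine (mc_mono_th (hthle a haL.le) ?_).trans
        (mc_pw_mono hA0 hβ0 hβ1 hret hth'0 L' h2 a (by omega))
      obtain ⟨E, _, hE⟩ := hex a (by omega)
      exact ⟨E, hE⟩
    have h4 : (mc (ν.pw a) (th a) : ℝ) ≤ mc (ν.pw L') th' := by exact_mod_cast h3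
    have h5 : 0 < K/th a := div_pos hK0 (hth0 a)
    calc (B.card:ℝ) ≤ 2*(K/th a)*mc (ν.pw a) (th a) := hB1
      _ ≤ 2*(K/τ) * mc (ν.pw L') th' := by gcongr
  · have h5 : 0 < K/th a := div_pos hK0 (hth0 a)
    calc ((B - B).card:ℝ) ≤ 2^35*(K/th a)^30 * B.card := hB2
      _ ≤ 2^35*(K/τ)^30 * B.card := by gcongr
  · refine le_trans ?_ hz'
    refine mul_le_mul_of_nonneg_right ?_ hW.le
    have h5 : τ/K ≤ th a/K := div_le_div_of_nonneg_right hτth hK0.le
    have h6 : 0 < τ/K := by positivity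
    gcongr

end Pool.CMP
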