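import Mathlib

/-!
Finitely supported weights on an abelian group, convolution, return property, minimal size of a set
of given mass.
-/

namespace Pool.CMP

open Finset
open scoped Pointwise

variable {G : Type*} [AddCommGroup G] [DecidableEq G]

/-- A finitely supported non-negative weight of total mass at most one. -/
structure Lw (G : Type*) where
  S : Finset G
  p : G → ℝ
  nn : ∀ x, 0 ≤ p x
  sp : ∀ x, x ∉ S → p x = 0
  tot : ∑ x ∈ S, p x ≤ 1

/-- The mass of a finite set. -/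
def Lw.mass (ν : Lw G) (E : Finset G) : ℝ := ∑ x ∈ E, ν.p x

theorem Lw.mass_nn (ν : Lw G) (E : Finset G) : 0 ≤ ν.mass E :=
  Finset.sum_nonneg fun x _ => ν.nn x

theorem Lw.mass_le (ν : Lw G) (E : Finset G) : ν.mass E ≤ 1 := by
  have h1 : ν.mass E = ∑ x ∈ E.filter (fun x => x ∈ ν.S), ν.p x := by
    unfold Lw.mass
    rw [Finset.sum_filter]
    refine Finset.sum_congr rfl fun x _ => ?_
    by_cases h : x ∈ ν.S
    · rw [if_pos h]
    · rw [if_neg h]; exact ν.sp x h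
  rw [h1]
  refine le_trans (Finset.sum_le_sum_of_subset_of_nonneg ?_ (fun x _ _ => ν.nn x)) ν.tot
  intro x hx
  exact (Finset.mem_filter.mp hx).2

theorem Lw.mass_mono (ν : Lw G) {E E' : Finset G} (h : E ⊆ E') : ν.mass E ≤ ν.mass E' :=
  Finset.sum_le_sum_of_subset_of_nonneg h (fun x _ _ => ν.nn x)

theorem Lw.shift (ν : Lw G) (E : Finset G) (a : G) :
    ∑ x ∈ E, ν.p (x - a) = ν.mass (E.image (fun x => x - a)) := by
  unfold Lw.mass
  rw [Finset.sum_image]
  intro x _ y _ h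
  exact sub_left_injective h

theorem card_shift (E : Finset G) (a : G) : (E.image (fun x => x - a)).card = E.card :=
  Finset.card_image_of_injective _ sub_left_injective

theorem Lw.shift_le (ν : Lw G) (E : Finset G) (a : G) : ∑ x ∈ E, ν.p (x - a) ≤ 1 := by
  rw [ν.shift]; exact ν.mass_le _

theorem Lw.rshift_le (ν : Lw G) (E : Finset G) (a : G) : ∑ x ∈ E, ν.p (a - x) ≤ 1 := by
  have : ∑ x ∈ E, ν.p (a - x) = ν.mass (E.image (fun x => a - x)) := by
    unfold Lw.mass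
    rw [Finset.sum_image]
    intro x _ y _ h
    exact sub_right_injective h
  rw [this]; exact ν.mass_le _

/-- Convolution. -/
def Lw.cv (ν ρ : Lw G) : Lw G where
  S := ν.S + ρ.S
  p := fun x => ∑ a ∈ ν.S, ν.p a * ρ.p (x - a)
  nn := fun x => Finset.sum_nonneg fun a _ => mul_nonneg (ν.nn a) (ρ.nn _)
  sp := by
    intro x hx
    refine Finset.sum_eq_zero fun a ha => ?_
    rw [ρ.sp (x - a), mul_zero]
    intro h
    exact hx (Finset.mem_add.mpr ⟨a, ha, x - a, h, by abel⟩)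
  tot := by
    rw [Finset.sum_comm]
    calc ∑ a ∈ ν.S, ∑ x ∈ ν.S + ρ.S, ν.p a * ρ.p (x - a)
        = ∑ a ∈ ν.S, ν.p a * ∑ x ∈ ν.S + ρ.S, ρ.p (x - a) := by
          refine Finset.sum_congr rfl fun a _ => ?_
          rw [Finset.mul_sum]
      _ ≤ ∑ a ∈ ν.S, ν.p a * 1 := by
          refine Finset.sum_le_sum fun a _ => ?_
          exact mul_le_mul_of_nonneg_left (ρ.shift_le _ _) (ν.nn a)
      _ ≤ 1 := by
          simp only [mul_one]; exact ν.tot

theorem Lw.cv_mass (ν ρ : Lw G) (E : Finset G) :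
    (ν.cv ρ).mass E = ∑ a ∈ ν.S, ν.p a * ∑ x ∈ E, ρ.p (x - a) := by
  unfold Lw.mass
  show ∑ x ∈ E, ∑ a ∈ ν.S, ν.p a * ρ.p (x - a) = _
  rw [Finset.sum_comm]
  refine Finset.sum_congr rfl fun a _ => ?_
  rw [Finset.mul_sum]

/-- An average at least th has a value at least th. -/
theorem Lw.exists_ge (ν : Lw G) (g : G → ℝ) (th : ℝ) (hth : 0 < th)
    (hg : ∀ a, 0 ≤ g a) (h : th ≤ ∑ a ∈ ν.S, ν.p a * g a) : ∃ a ∈ ν.S, th ≤ g a := by
  by_contra hcon
  push Not at hcon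
  rcases ν.S.eq_empty_or_nonempty with he | hne
  · rw [he, Finset.sum_empty] at h; linarith
  · obtain ⟨a0, ha0, hmax⟩ := Finset.exists_max_image ν.S g hne
    have h1 : ∑ a ∈ ν.S, ν.p a * g a ≤ ∑ a ∈ ν.S, ν.p a * g a0 := by
      refine Finset.sum_le_sum fun a ha => ?_
      exact mul_le_mul_of_nonneg_left (hmax a ha) (ν.nn a)
    rw [← Finset.sum_mul] at h1
    have h2 : (∑ a ∈ ν.S, ν.p a) * g a0 ≤ 1 * g a0 :=
      mul_le_mul_of_nonneg_right ν.tot (hg a0)
    have h3 := hcon a0 ha0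
    linarith

theorem Lw.cv_exists (ν ρ : Lw G) (E : Finset G) (th : ℝ) (hth : 0 < th)
    (h : th ≤ (ν.cv ρ).mass E) : ∃ a, th ≤ ρ.mass (E.image (fun x => x - a)) := by
  rw [Lw.cv_mass] at h
  obtain ⟨a, _, ha⟩ := ν.exists_ge (fun a => ∑ x ∈ E, ρ.p (x - a)) th hth
    (fun a => Finset.sum_nonneg fun x _ => ρ.nn _) h
  exact ⟨a, by rw [← ρ.shift]; exact ha⟩

/-- Return property. -/
def Ret (ν : Lw G) (A0 : Finset G) (β : ℝ) : Prop :=
  ∀ n ∈ A0, β ≤ ∑ m ∈ A0, ν.p (m - n)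

theorem Ret.cv {ν ρ : Lw G} {A0 : Finset G} {β β' : ℝ} (hβ : 0 ≤ β')
    (h : Ret ν A0 β) (h' : Ret ρ A0 β') : Ret (ν.cv ρ) A0 (β * β') := by
  intro n hn
  have e1 : ∑ m ∈ A0, (ν.cv ρ).p (m - n) = ∑ a ∈ ν.S, ν.p a * ∑ m ∈ A0, ρ.p (m - (n + a)) := by
    show ∑ m ∈ A0, ∑ a ∈ ν.S, ν.p a * ρ.p (m - n - a) = _
    rw [Finset.sum_comm]
    refine Finset.sum_congr rfl fun a _ => ?_
    rw [Finset.mul_sum]
    refine Finset.sum_congr rfl fun m _ => ?_
    rw [sub_sub]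
  rw [e1]
  have e2 : ∑ a ∈ ν.S.filter (fun a => n + a ∈ A0), ν.p a * β' ≤
      ∑ a ∈ ν.S, ν.p a * ∑ m ∈ A0, ρ.p (m - (n + a)) := by
    refine le_trans ?_ (Finset.sum_le_sum_of_subset_of_nonneg (Finset.filter_subset
      (fun a => n + a ∈ A0) _) (fun a _ _ => mul_nonneg (ν.nn a)
        (Finset.sum_nonneg fun _ _ => ρ.nn _)))
    refine Finset.sum_le_sum fun a ha => ?_
    exact mul_le_mul_of_nonneg_left (h' _ (Finset.mem_filter.mp ha).2) (ν.nn a)
  refine le_trans ?_ e2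
  rw [← Finset.sum_mul]
  have e3 : ∑ m ∈ A0, ν.p (m - n) ≤ ∑ a ∈ ν.S.filter (fun a => n + a ∈ A0), ν.p a := by
    have : ∑ m ∈ A0, ν.p (m - n) = ∑ m ∈ A0.filter (fun m => m - n ∈ ν.S), ν.p (m - n) := by
      rw [Finset.sum_filter]
      refine Finset.sum_congr rfl fun m _ => ?_
      by_cases h : m - n ∈ ν.S
      · rw [if_pos h]
      · rw [if_neg h]; exact ν.sp _ h
    rw [this]
    have h2 : ∑ m ∈ A0.filter (fun m => m - n ∈ ν.S), ν.p (m - n)
        = ∑ a ∈ (A0.filter (fun m => m - n ∈ ν.S)).image (fun m => m - n), ν.p a := by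
      rw [Finset.sum_image]
      intro x _ y _ h
      exact sub_left_injective h
    rw [h2]
    refine Finset.sum_le_sum_of_subset_of_nonneg ?_ (fun _ _ _ => ν.nn _)
    intro a ha
    obtain ⟨m, hm, rfl⟩ := Finset.mem_image.mp ha
    obtain ⟨hm1, hm2⟩ := Finset.mem_filter.mp hm
    refine Finset.mem_filter.mpr ⟨hm2, ?_⟩
    rw [add_sub_cancel]; exact hm1
  exact mul_le_mul_of_nonneg_right ((h n hn).trans e3) hβ

/-- Dyadic convolution powers. -/
def Lw.pw (ν : Lw G) : ℕ → Lw G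
  | 0 => ν
  | a + 1 => (ν.pw a).cv (ν.pw a)

theorem Ret.pw {ν : Lw G} {A0 : Finset G} {β : ℝ} (hβ : 0 ≤ β)
    (h : Ret ν A0 β) (a : ℕ) : Ret (ν.pw a) A0 (β ^ (2 ^ a)) := by
  induction a with
  | zero => simpa [Lw.pw] using h
  | succ a ih =>
    have := Ret.cv (by positivity) ih ih
    rw [← pow_add, ← two_mul, ← pow_succ'] at this
    exact this

/-- Any mass of a power is a mass of the law itself on a translate. -/
theorem Lw.pw_exists (ν : Lw G) (a : ℕ) (E : Finset G) (th : ℝ) (hth : 0 < th)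
    (h : th ≤ (ν.pw a).mass E) : ∃ z, th ≤ ν.mass (E.image (fun x => x - z)) := by
  induction a generalizing E with
  | zero =>
    refine ⟨0, ?_⟩
    simp only [sub_zero, Finset.image_id']
    exact h
  | succ a ih =>
    obtain ⟨z, hz⟩ := (ν.pw a).cv_exists (ν.pw a) E th hth h
    obtain ⟨z', hz'⟩ := ih _ hz
    refine ⟨z + z', ?_⟩
    have : (E.image (fun x => x - z)).image (fun x => x - z') = E.image (fun x => x - (z + z')) := by
      rw [Finset.image_image]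
      congr 1
      funext x
      simp only [Function.comp]
      abel
    rw [← this]; exact hz'

/-- Minimal size of a set of mass at least th. -/
noncomputable def mc (ν : Lw G) (th : ℝ) : ℕ := sInf {k | ∃ E : Finset G, E.card = k ∧ th ≤ ν.mass E}

theorem mc_le {ν : Lw G} {th : ℝ} {E : Finset G} (h : th ≤ ν.mass E) : mc ν th ≤ E.card :=
  Nat.sInf_le ⟨E, rfl, h⟩

theorem mc_spec {ν : Lw G} {th : ℝ} (h : ∃ E : Finset G, th ≤ ν.mass E) :
    ∃ E : Finset G, E.card = mc ν th ∧ th ≤ ν.mass E := by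
  obtain ⟨E, hE⟩ := h
  have : mc ν th ∈ {k | ∃ E : Finset G, E.card = k ∧ th ≤ ν.mass E} := Nat.sInf_mem ⟨_, E, rfl, hE⟩
  exact this

theorem mass_lt_of_card_lt {ν : Lw G} {th : ℝ} {E : Finset G} (h : E.card < mc ν th) :
    ν.mass E < th := by
  by_contra hcon
  push Not at hcon
  exact absurd (mc_le hcon) (not_le.mpr h)

theorem mc_pos {ν : Lw G} {th : ℝ} (hth : 0 < th) (h : ∃ E : Finset G, th ≤ ν.mass E) :
    0 < mc ν th := by
  obtain ⟨E, hc, hE⟩ := mc_spec h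
  rw [← hc, Finset.card_pos]
  by_contra hne
  rw [Finset.not_nonempty_iff_eq_empty] at hne
  rw [hne] at hE
  simp only [Lw.mass, Finset.sum_empty] at hE
  linarith

theorem mc_mono_th {ν : Lw G} {th th' : ℝ} (hle : th ≤ th') (h : ∃ E : Finset G, th' ≤ ν.mass E) :
    mc ν th ≤ mc ν th' := by
  obtain ⟨E, hc, hE⟩ := mc_spec h
  rw [← hc]
  exact mc_le (hle.trans hE)

theorem mc_pw_succ {ν : Lw G} {th : ℝ} (hth : 0 < th) (a : ℕ)
    (h : ∃ E : Finset G, th ≤ (ν.pw (a+1)).mass E) : mc (ν.pw a) th ≤ mc (ν.pw (a+1)) th := by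
  obtain ⟨E, hc, hE⟩ := mc_spec h
  obtain ⟨z, hz⟩ := (ν.pw a).cv_exists (ν.pw a) E th hth hE
  rw [← hc, ← card_shift E z]
  exact mc_le hz

end Pool.CMP
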