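import Pool.Agent.H50.CMP.Bsg
import Pool.Agent.H50.CMP.Law

/-!
One function: a set of small doubling which carries a large part of the law.
-/

namespace Pool.CMP

open Finset
open scoped Pointwise

variable {G : Type*} [AddCommGroup G] [DecidableEq G]

/-- The number of popular pairs. -/
theorem pop_pairs (ν : Lw G) (th K : ℝ) (m : ℕ) (hth0 : 0 < th) (hK : 1 ≤ K)
    (hm : 0 < m) (hmin : ∀ E' : Finset G, E'.card < m → ν.mass E' < th)
    (E : Finset G) (hE : (E.card:ℝ) ≤ K * m) (hmass : 4*th ≤ (ν.cv ν).mass E) :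
    th * (m:ℝ)^2 ≤ ((((ν.S.filter (fun x => th/(2*K*m) ≤ ν.p x ∧ ν.p x ≤ 1/m)) ×ˢ
      (ν.S.filter (fun x => th/(2*K*m) ≤ ν.p x ∧ ν.p x ≤ 1/m))).filter
        (fun q => q.1 + q.2 ∈ E)).card : ℝ) := by
  classical
  have hm0 : (0:ℝ) < m := by exact_mod_cast hm
  have hK0 : 0 < K := by linarith
  set lam : ℝ := th/(2*K*m) with hlam
  have hlam0 : 0 < lam := by positivity
  set D : Finset G := ν.S.filter (fun x => lam ≤ ν.p x ∧ ν.p x ≤ 1/m) with hD
  set H : Finset G := ν.S.filter (fun x => 1/(m:ℝ) < ν.p x) with hH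
  have hHc : H.card < m := by
    by_contra hcon
    push Not at hcon
    have hHne : H.Nonempty := Finset.card_pos.mp (by omega)
    have h1 : ∑ x ∈ H, (1/(m:ℝ)) < ν.mass H :=
      Finset.sum_lt_sum_of_nonempty hHne (fun x hx => (Finset.mem_filter.mp hx).2)
    have h2 := ν.mass_le H
    rw [sum_const, nsmul_eq_mul] at h1
    have h3 : (1:ℝ) ≤ (H.card:ℝ) * (1/(m:ℝ)) := by
      have : (m:ℝ) ≤ H.card := by exact_mod_cast hcon
      rw [mul_one_div, le_div_iff₀ hm0]; linarith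
    linarith
  have hHm : ν.mass H < th := hmin H hHc
  have hlE : lam * (E.card:ℝ) ≤ th/2 := by
    calc lam * (E.card:ℝ) ≤ lam * (K * m) := mul_le_mul_of_nonneg_left hE hlam0.le
      _ = th/2 := by rw [hlam]; field_simp
  rw [Lw.cv_mass] at hmass
  -- pointwise splitting
  have hpt : ∀ a ∈ ν.S, ∀ x ∈ E, ν.p a * ν.p (x - a) ≤
      (if a ∈ D ∧ x - a ∈ D then 1/(m:ℝ)^2 else 0) + (if a ∈ H then ν.p a * ν.p (x - a) else 0)
      + (if x - a ∈ H then ν.p a * ν.p (x - a) else 0) + lam * ν.p (x - a) + lam * ν.p a := by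
    intro a ha x _
    have p1 := ν.nn a
    have p2 := ν.nn (x - a)
    have p3 : 0 ≤ ν.p a * ν.p (x - a) := mul_nonneg p1 p2
    have q1 : (0:ℝ) ≤ (if a ∈ D ∧ x - a ∈ D then 1/(m:ℝ)^2 else 0) := by split_ifs <;> positivity
    have q2 : (0:ℝ) ≤ (if a ∈ H then ν.p a * ν.p (x - a) else 0) := by split_ifs <;> [exact p3; exact le_rfl]
    have q3 : (0:ℝ) ≤ (if x - a ∈ H then ν.p a * ν.p (x - a) else 0) := by
      split_ifs <;> [exact p3; exact le_rfl]
    have q4 : 0 ≤ lam * ν.p (x - a) := mul_nonneg hlam0.le p2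
    have q5 : 0 ≤ lam * ν.p a := mul_nonneg hlam0.le p1
    by_cases c1 : a ∈ H
    · rw [if_pos c1] at *; linarith
    by_cases c2 : x - a ∈ H
    · rw [if_pos c2] at *; linarith
    by_cases c3 : ν.p a < lam
    · have : ν.p a * ν.p (x - a) ≤ lam * ν.p (x - a) := mul_le_mul_of_nonneg_right c3.le p2
      linarith
    by_cases c4 : ν.p (x - a) < lam
    · have : ν.p a * ν.p (x - a) ≤ ν.p a * lam := mul_le_mul_of_nonneg_left c4.le p1
      linarith
    push Not at c3 c4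
    have hxS : x - a ∈ ν.S := by
      by_contra h
      have := ν.sp _ h
      linarith
    have h1 : ν.p a ≤ 1/m := by
      by_contra h; push Not at h
      exact c1 (Finset.mem_filter.mpr ⟨ha, h⟩)
    have h2 : ν.p (x - a) ≤ 1/m := by
      by_contra h; push Not at h
      exact c2 (Finset.mem_filter.mpr ⟨hxS, h⟩)
    have c5 : a ∈ D ∧ x - a ∈ D :=
      ⟨Finset.mem_filter.mpr ⟨ha, c3, h1⟩, Finset.mem_filter.mpr ⟨hxS, c4, h2⟩⟩
    rw [if_pos c5]
    have : ν.p a * ν.p (x - a) ≤ (1/m) * (1/m) := mul_le_mul h1 h2 p2 (by positivity)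
    have h3 : (1/(m:ℝ)) * (1/m) = 1/(m:ℝ)^2 := by field_simp
    linarith
  have hsum : ∑ a ∈ ν.S, ν.p a * ∑ x ∈ E, ν.p (x - a) ≤
      ∑ a ∈ ν.S, ∑ x ∈ E, ((if a ∈ D ∧ x - a ∈ D then 1/(m:ℝ)^2 else 0)
      + (if a ∈ H then ν.p a * ν.p (x - a) else 0)
      + (if x - a ∈ H then ν.p a * ν.p (x - a) else 0) + lam * ν.p (x - a) + lam * ν.p a) := by
    refine Finset.sum_le_sum fun a ha => ?_
    rw [Finset.mul_sum]
    exact Finset.sum_le_sum fun x hx => hpt a ha x hx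
  simp only [Finset.sum_add_distrib] at hsum
  -- the five sums
  have t2 : ∑ a ∈ ν.S, ∑ x ∈ E, (if a ∈ H then ν.p a * ν.p (x - a) else 0) ≤ ν.mass H := by
    calc ∑ a ∈ ν.S, ∑ x ∈ E, (if a ∈ H then ν.p a * ν.p (x - a) else 0)
        ≤ ∑ a ∈ ν.S, (if a ∈ H then ν.p a else 0) := by
          refine Finset.sum_le_sum fun a _ => ?_
          by_cases h : a ∈ H
          · simp only [if_pos h]
            rw [← Finset.mul_sum]
            calc ν.p a * ∑ x ∈ E, ν.p (x - a) ≤ ν.p a * 1 :=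
                  mul_le_mul_of_nonneg_left (ν.shift_le _ _) (ν.nn a)
              _ = ν.p a := mul_one _
          · simp only [if_neg h, Finset.sum_const_zero, le_refl]
      _ = ν.mass H := by
          unfold Lw.mass
          rw [← Finset.sum_filter]
          congr 1
          ext a
          simp only [hH, Finset.mem_filter]
          tauto
  have t3 : ∑ a ∈ ν.S, ∑ x ∈ E, (if x - a ∈ H then ν.p a * ν.p (x - a) else 0) ≤ ν.mass H := by
    calc ∑ a ∈ ν.S, ∑ x ∈ E, (if x - a ∈ H then ν.p a * ν.p (x - a) else 0)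
        ≤ ∑ a ∈ ν.S, ν.p a * ν.mass H := by
          refine Finset.sum_le_sum fun a _ => ?_
          have h1 : ∑ x ∈ E, (if x - a ∈ H then ν.p a * ν.p (x - a) else 0)
              = ν.p a * ∑ x ∈ E.filter (fun x => x - a ∈ H), ν.p (x - a) := by
            rw [Finset.sum_filter, Finset.mul_sum]
            refine Finset.sum_congr rfl fun x _ => ?_
            split_ifs <;> simp
          rw [h1]
          refine mul_le_mul_of_nonneg_left ?_ (ν.nn a)
          rw [ν.shift]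
          apply ν.mass_mono
          intro y hy
          obtain ⟨x, hx, rfl⟩ := Finset.mem_image.mp hy
          exact (Finset.mem_filter.mp hx).2
      _ = (∑ a ∈ ν.S, ν.p a) * ν.mass H := by rw [Finset.sum_mul]
      _ ≤ 1 * ν.mass H := mul_le_mul_of_nonneg_right ν.tot (ν.mass_nn H)
      _ = ν.mass H := one_mul _
  have t4 : ∑ a ∈ ν.S, ∑ x ∈ E, lam * ν.p (x - a) ≤ th/2 := by
    rw [Finset.sum_comm]
    calc ∑ x ∈ E, ∑ a ∈ ν.S, lam * ν.p (x - a) ≤ ∑ x ∈ E, lam := by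
          refine Finset.sum_le_sum fun x _ => ?_
          rw [← Finset.mul_sum]
          calc lam * ∑ a ∈ ν.S, ν.p (x - a) ≤ lam * 1 :=
                mul_le_mul_of_nonneg_left (ν.rshift_le _ _) hlam0.le
            _ = lam := mul_one _
      _ = lam * (E.card:ℝ) := by rw [sum_const, nsmul_eq_mul, mul_comm]
      _ ≤ th/2 := hlE
  have t5 : ∑ a ∈ ν.S, ∑ x ∈ E, lam * ν.p a ≤ th/2 := by
    calc ∑ a ∈ ν.S, ∑ x ∈ E, lam * ν.p a = (lam * (E.card:ℝ)) * ∑ a ∈ ν.S, ν.p a := by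
          rw [Finset.mul_sum]
          refine Finset.sum_congr rfl fun a _ => ?_
          rw [sum_const, nsmul_eq_mul]; ring
      _ ≤ (lam * (E.card:ℝ)) * 1 := mul_le_mul_of_nonneg_left ν.tot (by positivity)
      _ ≤ th/2 := by rw [mul_one]; exact hlE
  have t1 : ∑ a ∈ ν.S, ∑ x ∈ E, (if a ∈ D ∧ x - a ∈ D then 1/(m:ℝ)^2 else 0) ≤
      ((((D ×ˢ D).filter (fun q => q.1 + q.2 ∈ E)).card : ℝ)) * (1/(m:ℝ)^2) := by
    have h1 : ∑ a ∈ ν.S, ∑ x ∈ E, (if a ∈ D ∧ x - a ∈ D then 1/(m:ℝ)^2 else 0)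
        = (((ν.S ×ˢ E).filter (fun q => q.1 ∈ D ∧ q.2 - q.1 ∈ D)).card : ℝ) * (1/(m:ℝ)^2) := by
      rw [← Finset.sum_product', ← Finset.sum_filter (s := ν.S ×ˢ E)
        (fun q : G × G => q.1 ∈ D ∧ q.2 - q.1 ∈ D) (fun _ => 1/(m:ℝ)^2), sum_const, nsmul_eq_mul]
    rw [h1]
    refine mul_le_mul_of_nonneg_right ?_ (by positivity)
    have : ((ν.S ×ˢ E).filter (fun q => q.1 ∈ D ∧ q.2 - q.1 ∈ D)).card ≤
        ((D ×ˢ D).filter (fun q => q.1 + q.2 ∈ E)).card := by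
      apply Finset.card_le_card_of_injOn (fun q => (q.1, q.2 - q.1))
      · intro q hq
        have hq' := Finset.mem_filter.mp (Finset.mem_coe.mp hq)
        apply Finset.mem_coe.mpr
        refine Finset.mem_filter.mpr ⟨Finset.mem_product.mpr ⟨hq'.2.1, hq'.2.2⟩, ?_⟩
        show q.1 + (q.2 - q.1) ∈ E
        rw [add_sub_cancel]
        exact (Finset.mem_product.mp hq'.1).2
      · rintro ⟨a, b⟩ _ ⟨a', b'⟩ _ h
        simp only [Prod.mk.injEq] at h
        obtain ⟨h1, h2⟩ := h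
        subst h1
        rw [sub_left_injective h2]
    exact_mod_cast this
  have hfin : th ≤ ((((D ×ˢ D).filter (fun q => q.1 + q.2 ∈ E)).card : ℝ)) * (1/(m:ℝ)^2) := by
    linarith
  rw [mul_one_div, le_div_iff₀ (by positivity)] at hfin
  exact hfin

/-- One law: a set of small doubling and large mass. -/
theorem one_core (ν : Lw G) (th K : ℝ) (m : ℕ) (hth0 : 0 < th) (hth1 : th ≤ 1) (hK : 1 ≤ K)
    (hm : 0 < m) (hmin : ∀ E' : Finset G, E'.card < m → ν.mass E' < th)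
    (E : Finset G) (hE : (E.card:ℝ) ≤ K * m) (hmass : 4*th ≤ (ν.cv ν).mass E) :
    ∃ B : Finset G, (B.card:ℝ) ≤ 2*(K/th)*m ∧ ((B - B).card:ℝ) ≤ 2^35*(K/th)^30 * B.card ∧
      (1/16) * (th/K)^5 ≤ ν.mass B := by
  classical
  have hpairs := pop_pairs ν th K m hth0 hK hm hmin E hE hmass
  have hm0 : (0:ℝ) < m := by exact_mod_cast hm
  have hK0 : 0 < K := by linarith
  set lam : ℝ := th/(2*K*m) with hlam
  have hlam0 : 0 < lam := by positivity
  set D : Finset G := ν.S.filter (fun x => lam ≤ ν.p x ∧ ν.p x ≤ 1/m) with hD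
  have hΛ : 1 ≤ K/th := by rw [le_div_iff₀ hth0]; linarith
  set Λ : ℝ := K/th with hΛd
  have hΛ0 : 0 < Λ := by linarith
  -- upper bound for the number of elements of D
  have hDu : (D.card:ℝ) ≤ 2*Λ*m := by
    have h1 : ∑ x ∈ D, lam ≤ ν.mass D := Finset.sum_le_sum fun x hx => (Finset.mem_filter.mp hx).2.1
    rw [sum_const, nsmul_eq_mul] at h1
    have h2 := ν.mass_le D
    have h3 : (D.card:ℝ) * lam ≤ 1 := h1.trans h2
    have h4 : (2*Λ*m) * lam = 1 := by rw [hlam, hΛd]; field_simp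
    rw [← h4] at h3
    exact le_of_mul_le_mul_right h3 hlam0
  -- lower bound
  have hpc : ((((D ×ˢ D).filter (fun q => q.1 + q.2 ∈ E)).card : ℝ)) ≤ (D.card:ℝ)^2 := by
    have h1 : ((D ×ˢ D).filter (fun q => q.1 + q.2 ∈ E)).card ≤ (D ×ˢ D).card :=
      Finset.card_filter_le _ _
    have h2 : ((D ×ˢ D).card : ℝ) = (D.card:ℝ)^2 := by rw [Finset.card_product]; push_cast; ring
    calc _ ≤ ((D ×ˢ D).card : ℝ) := by exact_mod_cast h1
      _ = _ := h2
  have hDl : th * m ≤ (D.card:ℝ) := by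
    have h1 : (th * m)^2 ≤ (D.card:ℝ)^2 := by
      calc (th*m)^2 = th * (th * (m:ℝ)^2) := by ring
        _ ≤ 1 * (th * (m:ℝ)^2) := mul_le_mul_of_nonneg_right hth1 (by positivity)
        _ = th * (m:ℝ)^2 := one_mul _
        _ ≤ (D.card:ℝ)^2 := hpairs.trans hpc
    exact le_of_sq_le_sq h1 (by positivity)
  have hDne : D.Nonempty := by
    rw [← Finset.card_pos]
    have : (0:ℝ) < (D.card:ℝ) := lt_of_lt_of_le (by positivity) hDl
    exact_mod_cast this
  have hK' : 1 ≤ 4*Λ^3 := by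
    have : 1 ≤ Λ^3 := one_le_pow₀ hΛ
    linarith
  have hp' : (D.card:ℝ)^2/(4*Λ^3) ≤ ((((D ×ˢ D).filter (fun q => q.1 + q.2 ∈ E)).card : ℝ)) := by
    refine le_trans ?_ hpairs
    rw [div_le_iff₀ (by positivity)]
    calc (D.card:ℝ)^2 ≤ (2*Λ*m)^2 := pow_le_pow_left₀ (by positivity) hDu 2
      _ = 4*Λ^2*(m:ℝ)^2 * 1 := by ring
      _ ≤ 4*Λ^2*(m:ℝ)^2 * K := mul_le_mul_of_nonneg_left hK (by positivity)
      _ = th * (m:ℝ)^2 * (4*Λ^3) := by
          rw [hΛd]; field_simp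
  have hE' : (E.card:ℝ) ≤ (4*Λ^3) * D.card := by
    have h1 : K * m ≤ Λ * D.card := by
      calc K * m = Λ * (th * m) := by rw [hΛd]; field_simp
        _ ≤ Λ * D.card := mul_le_mul_of_nonneg_left hDl hΛ0.le
    have h2 : Λ ≤ 4*Λ^3 := by
      have : 1 ≤ Λ^2 := one_le_pow₀ hΛ
      nlinarith
    calc (E.card:ℝ) ≤ K*m := hE
      _ ≤ Λ * D.card := h1
      _ ≤ (4*Λ^3) * D.card := mul_le_mul_of_nonneg_right h2 (by positivity)
  obtain ⟨B, hBD, hBc, hBB⟩ := bsg D E (4*Λ^3) hK' hDne hp' hE'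
  have hDB : (D.card:ℝ) ≤ 8*Λ^3 * B.card := by
    rw [div_le_iff₀ (by positivity)] at hBc
    linarith
  refine ⟨B, ?_, ?_, ?_⟩
  · calc (B.card:ℝ) ≤ D.card := by exact_mod_cast Finset.card_le_card hBD
      _ ≤ 2*Λ*m := hDu
  · calc ((B - B).card:ℝ) ≤ 2^14 * (4*Λ^3)^9 * D.card := hBB
      _ ≤ 2^14 * (4*Λ^3)^9 * (8*Λ^3 * B.card) := mul_le_mul_of_nonneg_left hDB (by positivity)
      _ = 2^35 * Λ^30 * B.card := by ring
  · have h1 : ∑ x ∈ B, lam ≤ ν.mass B :=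
      Finset.sum_le_sum fun x hx => (Finset.mem_filter.mp (hBD hx)).2.1
    rw [sum_const, nsmul_eq_mul] at h1
    refine le_trans ?_ h1
    have h2 : th * m / (8*Λ^3) ≤ (B.card:ℝ) := by
      rw [div_le_iff₀ (by positivity)]
      linarith
    calc (1/16) * (th/K)^5 ≤ (1/16) * (th/K)^5 * K := by
          nlinarith [show (0:ℝ) ≤ (1/16) * (th/K)^5 by positivity]
      _ = (th * m / (8*Λ^3)) * lam := by
          rw [hlam, hΛd]; field_simp; norm_num
      _ ≤ (B.card:ℝ) * lam := mul_le_mul_of_nonneg_right h2 hlam0.le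

end Pool.CMP
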